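import Pool.Agent.KS6_13.MX.Web
import Pool.Graph.R_seed8.W587.MX.Asm
import Pool.Graph.R_seed8.W153.MX.Brf

/-! The explicit bound `2 k` for all radii outside a locally finite set. -/

set_option autoImplicit false

namespace Pool.Agent.KS6_13.MX

open Set Filter Topology Metric
open Pool.Agent.W587.MX Pool.Agent.W885.MX

/-- **no simple point with `2 m + 1` branches**, `m` the counting bound near `0` -/
theorem noweb (hs1 : S1_SYM) (hs4 : S4_SHIFT) (h9 : T9_LIMF) (h10 : T10_LIMI)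
    {f fs : ℂ → ℂ} (hf : Differentiable ℂ f) (hfs : Differentiable ℂ fs) (hf0 : f 0 ≠ 0)
    (hfs0 : fs 0 ≠ 0) (hdf : ∃ z, deriv f z ≠ 0) (hdfs : ∃ z, deriv fs z ≠ 0) {m : ℕ} {δ1 δ2 : ℝ}
    (hc1 : Cnt f m δ1) (hc2 : Cnt fs m δ2) {K : ℕ} (hK : K = 2 * m + 1) (a0 : ℂ)
    (z0 w0 : Fin K → ℂ) (hSP0 : SP f fs K a0 z0 w0) : False := by
  set δ := min δ1 δ2 with hδ
  have hδ0 : 0 < δ := lt_min hc1.1 hc2.1
  have hC : Cnt f m δ := ⟨hδ0, fun a ha s hs => (hc1.2 a ha s (fun z hz =>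
    ⟨(hs z hz).1.trans_le (min_le_left _ _), (hs z hz).2⟩))⟩
  have hC' : Cnt fs m δ := ⟨hδ0, fun a ha s hs => (hc2.2 a ha s (fun z hz =>
    ⟨(hs z hz).1.trans_le (min_le_right _ _), (hs z hz).2⟩))⟩
  have hlow : ∀ a0 z w, SP f fs K a0 z w → ∀ i, δ ^ 2 ≤ ‖z i * w i‖ := fun a0 z w h i =>
    lower hs1 f fs m δ K (by omega) hC hC' a0 z w h i
  set S : Set ℝ := {x | ∃ a0 z w, SP f fs K a0 z w ∧ ∃ i, x = ‖z i * w i‖} with hS
  have hi0 : 0 < K := by omega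
  have hne : S.Nonempty := ⟨_, a0, z0, w0, hSP0, ⟨0, hi0⟩, rfl⟩
  have hbdd : BddBelow S := ⟨δ ^ 2, by
    rintro x ⟨a, z, w, h, i, rfl⟩
    exact hlow a z w h i⟩
  set κ := sInf S with hκ
  have hκδ : δ ^ 2 ≤ κ := le_csInf hne (by
    rintro x ⟨a, z, w, h, i, rfl⟩
    exact hlow a z w h i)
  have hκ0 : 0 < κ := lt_of_lt_of_le (by positivity) hκδ
  have hκle : ∀ a0 z w, SP f fs K a0 z w → ∀ i, κ ≤ ‖z i * w i‖ := fun a z w h i =>
    csInf_le hbdd ⟨a, z, w, h, i, rfl⟩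
  have hex : ∀ n : ℕ, ∃ (a : ℂ) (z w : Fin K → ℂ), SP f fs K a z w ∧
      ∀ i, ‖z i * w i‖ < κ + 1 / ((n : ℝ) + 1) := by
    intro n
    have hlt : κ < κ + 1 / ((n : ℝ) + 1) := lt_add_of_pos_right _ (by positivity)
    obtain ⟨x, ⟨a, z, w, h, i, rfl⟩, hx⟩ := exists_lt_of_csInf_lt hne hlt
    refine ⟨a, z, w, h, fun j => ?_⟩
    rw [tie_eq f fs K a z w h j i]
    exact hx
  choose a z w hSP hlt using hex
  obtain ⟨l, hl⟩ : ∃ l : Ultrafilter ℕ, (l : Filter ℕ) ≤ atTop :=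
    ⟨Filter.hyperfilter ℕ, Nat.hyperfilter_le_atTop⟩
  have hlim0 : Tendsto (fun n : ℕ => 1 / ((n : ℝ) + 1)) (l : Filter ℕ) (𝓝 0) :=
    tendsto_one_div_add_atTop_nhds_zero_nat.mono_left hl
  have hlimκ : Tendsto (fun n : ℕ => κ + 1 / ((n : ℝ) + 1)) (l : Filter ℕ) (𝓝 κ) := by
    have := (tendsto_const_nhds (x := κ) (f := (l : Filter ℕ))).add hlim0
    rwa [add_zero] at this
  by_cases htop : Tendsto (fun n => ‖a n‖) (l : Filter ℕ) atTop
  · refine h10 f fs κ K l a z w hf hfs hf0 hfs0 (by omega) hκ0 hκle hSP htop ?_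
    intro i
    exact tendsto_of_tendsto_of_tendsto_of_le_of_le tendsto_const_nhds hlimκ
      (fun n => hκle _ _ _ (hSP n) i) (fun n => (hlt n i).le)
  · rw [Filter.tendsto_atTop, not_forall] at htop
    obtain ⟨C, hCn⟩ := htop
    have hev : ∀ᶠ n in (l : Filter ℕ), ¬ C ≤ ‖a n‖ := Ultrafilter.eventually_not.2 hCn
    have hmem : closedBall (0 : ℂ) C ∈ (l.map a) := by
      rw [Ultrafilter.mem_map]
      filter_upwards [hev] with n hn
      rw [Set.mem_preimage, mem_closedBall, dist_zero_right]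
      exact (not_le.1 hn).le
    obtain ⟨as, -, has⟩ := isCompact_iff_ultrafilter_le_nhds'.1
      (isCompact_closedBall (0 : ℂ) C) (l.map a) hmem
    have has' : Tendsto a (l : Filter ℕ) (𝓝 as) := has
    have hsh : ∀ n : ℕ, ∃ (a1 : ℂ) (z1 w1 : Fin K → ℂ), SP f fs K a1 z1 w1 ∧ a1 ≠ as ∧
        ‖a1 - a n‖ < 1 / ((n : ℝ) + 1) ∧ ∀ i, ‖z1 i * w1 i - z n i * w n i‖ <
          1 / ((n : ℝ) + 1) := by
      intro n
      obtain ⟨a1, z1, w1, h1, h2, h3, h4⟩ := hs4 f fs K (a n) (z n) (w n) hf hfs (hSP n) as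
        (1 / ((n : ℝ) + 1)) (by positivity)
      exact ⟨a1, z1, w1, h1, h2, h3, fun i => (h4 i).2.2⟩
    choose a' z' w' hSP' hne' hd hp using hsh
    have hdiff : Tendsto (fun n => a' n - a n) (l : Filter ℕ) (𝓝 0) :=
      squeeze_zero_norm (fun n => (hd n).le) hlim0
    have ha' : Tendsto a' (l : Filter ℕ) (𝓝 as) := by
      have := hdiff.add has'
      rw [zero_add] at this
      refine this.congr (fun n => ?_)
      ring
    refine h9 f fs m δ κ K l a' z' w' as hf hfs hf0 hfs0 hdf hdfs hC hC' (by omega) hκ0 hκle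
      hSP' hne' ha' ?_
    intro i
    have hup : Tendsto (fun n : ℕ => κ + 1 / ((n : ℝ) + 1) + 1 / ((n : ℝ) + 1)) (l : Filter ℕ)
        (𝓝 κ) := by
      have := hlimκ.add hlim0
      rwa [add_zero] at this
    refine tendsto_of_tendsto_of_tendsto_of_le_of_le tendsto_const_nhds hup
      (fun n => hκle _ _ _ (hSP' n) i) (fun n => ?_)
    have e1 : z' n i * w' n i = z n i * w n i + (z' n i * w' n i - z n i * w n i) := by ring
    have h5 : ‖z' n i * w' n i‖ ≤ ‖z n i * w n i‖ + ‖z' n i * w' n i - z n i * w n i‖ := by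
      calc ‖z' n i * w' n i‖ = ‖z n i * w n i + (z' n i * w' n i - z n i * w n i)‖ := by
            rw [← e1]
        _ ≤ _ := norm_add_le _ _
    have h6 := hlt n i
    have h7 := hp n i
    show ‖z' n i * w' n i‖ ≤ κ + 1 / ((n : ℝ) + 1) + 1 / ((n : ℝ) + 1)
    linarith



/-- the counting bound near `0` is the order of the first nonconstant term -/
theorem cnt_explicit {g h : ℂ → ℂ} {k : ℕ} (hk : 1 ≤ k) (hg : Differentiable ℂ g) {c : ℂ}
    (hc : c ≠ 0) (hh : AnalyticAt ℂ h 0) (hh0 : h 0 ≠ 0) (hgh : ∀ z, g z = c + z ^ k * h z) :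
    ∃ δ, Cnt g k δ := by
  classical
  have hfa : AnalyticOnNhd ℂ g univ := fun z _ => hg.analyticAt z
  have hda : AnalyticOnNhd ℂ (deriv g) univ := hfa.deriv
  have hg0 : g 0 = c := by rw [hgh, zero_pow (by omega), zero_mul, add_zero]
  have hg0' : g 0 ≠ 0 := by rw [hg0]; exact hc
  have hfn : ∀ᶠ z in 𝓝 (0 : ℂ), g z ≠ 0 := hg.continuous.continuousAt.eventually_ne hg0'
  have hG : AnalyticAt ℂ (fun z => z * deriv g z / g z) 0 :=
    (analyticAt_id.mul (hda 0 (mem_univ _))).div (hfa 0 (mem_univ _)) hg0'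
  have hG0 : (fun z => z * deriv g z / g z) 0 = 0 := by simp
  -- the order
  have ho1 : analyticOrderAt (fun z => g z - g 0) 0 = (k : ℕ∞) := by
    rw [AnalyticAt.analyticOrderAt_eq_natCast (f := fun z => g z - g 0)
      ((hfa 0 (mem_univ _)).sub analyticAt_const)]
    refine ⟨h, hh, hh0, Eventually.of_forall fun z => ?_⟩
    rw [hg0, hgh z, sub_zero, smul_eq_mul]
    ring
  have ho2 := (hfa 0 (mem_univ _)).analyticOrderAt_deriv_add_one
  rw [ho1] at ho2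
  have ho3 : analyticOrderAt (fun z => z * deriv g z / g z) 0 = (k : ℕ∞) := by
    have e1 : (fun z => z * deriv g z / g z) = ((id * deriv g) * fun z => (g z)⁻¹ : ℂ → ℂ) := by
      funext z
      rw [Pi.mul_apply, Pi.mul_apply, id, div_eq_mul_inv]
    have e2 : AnalyticAt ℂ (fun z => (g z)⁻¹) 0 := (hfa 0 (mem_univ _)).inv hg0'
    rw [e1]
    have e3 := analyticOrderAt_mul (analyticAt_id.mul (hda 0 (mem_univ _))) e2
    have e4 : analyticOrderAt (fun z => (g z)⁻¹) 0 = 0 := by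
      rw [e2.analyticOrderAt_eq_zero]
      exact inv_ne_zero hg0'
    have e5 := analyticOrderAt_mul (analyticAt_id (𝕜 := ℂ) (z := (0 : ℂ))) (hda 0 (mem_univ _))
    rw [analyticOrderAt_id] at e5
    rw [e3, e4, add_zero, e5, add_comm, ho2]
  have hGn : ¬ ∀ᶠ z in 𝓝 (0 : ℂ), (fun z => z * deriv g z / g z) z = 0 := by
    intro h1
    rw [analyticOrderAt_eq_top.2 h1] at ho3
    exact absurd ho3.symm (ENat.natCast_ne_top k)
  obtain ⟨e, he, φ, ψ, hφ, _, hφ0, _, h1, _, h2⟩ := Pool.Agent.W490.MX.root _ 0 hG hG0 hGn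
  have hek : e ≤ k := by
    have h3 : analyticOrderAt (fun z => z * deriv g z / g z) 0 = analyticOrderAt (φ ^ e) 0 :=
      analyticOrderAt_congr h2
    rw [ho3, analyticOrderAt_pow hφ] at h3
    have h4 : 1 ≤ analyticOrderAt φ 0 := by
      rw [Order.one_le_iff_ne_zero, hφ.analyticOrderAt_ne_zero]
      exact hφ0
    have h5 : (e : ℕ∞) ≤ e • analyticOrderAt φ 0 := by
      calc (e : ℕ∞) = e • (1 : ℕ∞) := by simp
        _ ≤ _ := nsmul_le_nsmul_right h4 e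
    rw [← h3] at h5
    exact_mod_cast h5
  obtain ⟨δ, hδ, hall⟩ := Metric.eventually_nhds_iff.mp (h1.and (h2.and hfn))
  refine ⟨δ, hδ, ?_⟩
  intro a ha s hs
  have hz : ∀ z ∈ s, ψ (φ z) = z ∧ φ z ^ e = a := by
    intro z hzs
    obtain ⟨hz1, hz2⟩ := hs z hzs
    obtain ⟨a1, a2, a3⟩ := hall (y := z) (by rw [dist_zero_right]; exact hz1)
    refine ⟨a1, ?_⟩
    rw [← a2]
    show z * deriv g z / g z = a
    rw [hz2, mul_div_assoc, div_self a3, mul_one]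
  have hinj : Set.InjOn φ (s : Set ℂ) := by
    intro x hx y hy hxy
    rw [← (hz x hx).1, ← (hz y hy).1, hxy]
  have hsub : s.image φ ⊆ (Polynomial.nthRoots e a).toFinset := by
    intro y hy
    obtain ⟨x, hx, rfl⟩ := Finset.mem_image.mp hy
    rw [Multiset.mem_toFinset, Polynomial.mem_nthRoots (by omega)]
    exact (hz x hx).2
  calc s.card = (s.image φ).card := (Finset.card_image_of_injOn hinj).symm
    _ ≤ (Polynomial.nthRoots e a).toFinset.card := Finset.card_le_card hsub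
    _ ≤ Multiset.card (Polynomial.nthRoots e a) := Multiset.toFinset_card_le _
    _ ≤ e := Polynomial.card_nthRoots e a
    _ ≤ k := hek

/-- **the bound for the normalised function** -/
theorem finite_exc {g h : ℂ → ℂ} {k : ℕ} (hk : 1 ≤ k) (hg : Differentiable ℂ g) {c : ℂ}
    (hc : c ≠ 0) (hh : AnalyticAt ℂ h 0) (hh0 : h 0 ≠ 0) (hgh : ∀ z, g z = c + z ^ k * h z)
    (R : ℝ) : {r : ℝ | 0 < r ∧ r ≤ R ∧ ((2 * k + 1 : ℕ) : ℕ∞) ≤
      {z : ℂ | ‖z‖ = r ∧ ∀ w, ‖w‖ = r → ‖g w‖ ≤ ‖g z‖}.encard}.Finite := by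
  have hg0 : g 0 = c := by rw [hgh, zero_pow (by omega), zero_mul, add_zero]
  have hg0' : g 0 ≠ 0 := by rw [hg0]; exact hc
  have hgd : ∃ z, deriv g z ≠ 0 := by
    by_contra hcon
    push Not at hcon
    have h1 : ∀ z, z ^ k * h z = 0 := by
      intro z
      have := is_const_of_deriv_eq_zero hg hcon z 0
      rw [hg0, hgh z] at this
      exact add_eq_left.1 this
    have h2 : ∀ᶠ z in 𝓝 (0 : ℂ), h z ≠ 0 := hh.continuousAt.eventually_ne hh0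
    obtain ⟨z, hz1, hz2⟩ := ((h2.filter_mono nhdsWithin_le_nhds).and
      (self_mem_nhdsWithin : {(0 : ℂ)}ᶜ ∈ 𝓝[≠] (0 : ℂ))).exists
    rcases mul_eq_zero.1 (h1 z) with h3 | h3
    · exact hz2 (pow_eq_zero_iff (by omega) |>.1 h3)
    · exact hz1 h3
  obtain ⟨hcd, hcdd, -⟩ := Pool.Agent.W715.MX.p4_conj g hg
  have hcg0 : cj g 0 = (starRingEnd ℂ) c := by
    show (starRingEnd ℂ) (g ((starRingEnd ℂ) 0)) = _
    rw [map_zero, hg0]
  have hc' : (starRingEnd ℂ) c ≠ 0 := (map_ne_zero _).2 hc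
  have hcgd : ∃ z, deriv (cj g) z ≠ 0 := by
    obtain ⟨z, hz⟩ := hgd
    refine ⟨(starRingEnd ℂ) z, ?_⟩
    rw [hcdd, Complex.conj_conj]
    exact (map_ne_zero _).2 hz
  obtain ⟨δ1, hc1⟩ := cnt_explicit hk hg hc hh hh0 hgh
  obtain ⟨δ2, hc2⟩ := cnt_explicit (g := cj g) (h := cj h) hk hcd hc' (cj_analyticAt0 hh) (by
    show (starRingEnd ℂ) (h ((starRingEnd ℂ) 0)) ≠ 0
    rw [map_zero]
    exact (map_ne_zero _).2 hh0) (by
    intro z
    show (starRingEnd ℂ) (g ((starRingEnd ℂ) z)) = (starRingEnd ℂ) c +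
      z ^ k * (starRingEnd ℂ) (h ((starRingEnd ℂ) z))
    rw [hgh, map_add, map_mul, map_pow, Complex.conj_conj])
  by_contra hinf
  obtain ⟨rs, hrs, hacc⟩ := Set.Infinite.exists_accPt_of_subset_isCompact
    (K := Icc 0 R) hinf isCompact_Icc (fun r hr => ⟨hr.1.le, hr.2.1⟩)
  have hne : NeBot (𝓝[≠] rs ⊓ 𝓟 {r : ℝ | 0 < r ∧ r ≤ R ∧ ((2 * k + 1 : ℕ) : ℕ∞) ≤
      {z : ℂ | ‖z‖ = r ∧ ∀ w, ‖w‖ = r → ‖g w‖ ≤ ‖g z‖}.encard}) := hacc
  let U : Ultrafilter ℝ := Ultrafilter.of (𝓝[≠] rs ⊓ 𝓟 {r : ℝ | 0 < r ∧ r ≤ R ∧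
    ((2 * k + 1 : ℕ) : ℕ∞) ≤ {z : ℂ | ‖z‖ = r ∧ ∀ w, ‖w‖ = r → ‖g w‖ ≤ ‖g z‖}.encard})
  have hU : (U : Filter ℝ) ≤ 𝓝[≠] rs ⊓ 𝓟 {r : ℝ | 0 < r ∧ r ≤ R ∧ ((2 * k + 1 : ℕ) : ℕ∞) ≤
      {z : ℂ | ‖z‖ = r ∧ ∀ w, ‖w‖ = r → ‖g w‖ ≤ ‖g z‖}.encard} := Ultrafilter.of_le _
  have hmem : ∀ᶠ r in (U : Filter ℝ), 0 < r ∧ r ≤ R ∧ ((2 * k + 1 : ℕ) : ℕ∞) ≤
      {z : ℂ | ‖z‖ = r ∧ ∀ w, ‖w‖ = r → ‖g w‖ ≤ ‖g z‖}.encard :=
    hU.trans inf_le_right (mem_principal_self _)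
  obtain ⟨a0, z, w, hSP⟩ := web hg hg0' hgd (K := 2 * k + 1) (by omega) U (hU.trans inf_le_left)
    (hmem.mono fun r h => h.1) (hmem.mono fun r h => h.2.2)
  -- the library's parts
  have h4 : T4_BRF := Pool.Agent.W153.MX.brf Pool.Agent.W490.MX.root
  have h1 : T1_UNIQ := @Pool.Agent.W831.MX.t1_uniq
  have h5 : T5_BRI := Pool.Agent.W29.MX.t5_bri
  have h6 : T6_NZ := Pool.Agent.W164.MX.nz
  have h7 : T7_DISC := Pool.Agent.W2.MX.disc @h1 isPreconnected_PB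
  have s1 : S1_SYM := Pool.Agent.W750.MX.s1
  have s2 : S2_TIE := Pool.Agent.W750.MX.s2 @h1
  have s3 : S3_NONC := Pool.Agent.W750.MX.s3 @h1
  have s4 : S4_SHIFT := Pool.Agent.W509.MX.shift
  have h8 : T8_STEP := Pool.Agent.W120.MX.t8_step @h1 h6 h7 s1 s2 s3 isPreconnected_PB
  have c1 : C1_CLS := Pool.Agent.W765.MXU.c1
  have c2 : C2_LIM := Pool.Agent.W765.MXU.c2
  have c3 : C3_IDX := Pool.Agent.W369.MX.c3_idx s1
  have h9 : T9_LIMF := Pool.Agent.W724.MX.t9_limf h4 h8 c1 c2 c3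
  have h10 : T10_LIMI := Pool.Agent.W73.MX.limi h5 h8 c1 c2
  exact noweb s1 s4 h9 h10 hg hcd hg0' (by rw [hcg0]; exact hc') hgd hcgd hc1 hc2 rfl a0 z w hSP

end Pool.Agent.KS6_13.MX
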