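import Pool.Graph.R_seed8.W587.MX.Stm
import Pool.Graph.R_seed8.W490.MX.Root
import Pool.Graph.R_seed8.W715.MX.Conj

/-! One branch of maximum points is an analytic function of a fractional power of `s² - r²`. -/

set_option autoImplicit false

namespace Pool.Agent.KS6_13.MX

open Set Filter Topology Metric
open Pool.Agent.W587.MX

/-- `cj` preserves analyticity -/
lemma cj_analyticAt {G : ℂ → ℂ} {a : ℂ} (hG : AnalyticAt ℂ G a) :
    AnalyticAt ℂ (cj G) ((starRingEnd ℂ) a) := by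
  rw [Complex.analyticAt_iff_eventually_differentiableAt] at hG ⊢
  filter_upwards [(Pool.Agent.W715.MX.tendsto_conj a).eventually hG] with w hw
  change DifferentiableAt ℂ ((starRingEnd ℂ) ∘ G ∘ (starRingEnd ℂ)) w
  rw [differentiableAt_conj_conj_iff]
  exact hw

lemma cj_analyticAt0 {G : ℂ → ℂ} (hG : AnalyticAt ℂ G 0) : AnalyticAt ℂ (cj G) 0 := by
  have := cj_analyticAt hG
  rwa [map_zero] at this

lemma cj_real (G : ℂ → ℂ) (t : ℝ) : cj G (t : ℂ) = (starRingEnd ℂ) (G t) := by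
  show (starRingEnd ℂ) (G ((starRingEnd ℂ) (t : ℂ))) = _
  rw [Complex.conj_ofReal]

lemma mul_cj_real (G : ℂ → ℂ) (t : ℝ) : G t * cj G (t : ℂ) = ((‖G t‖ ^ 2 : ℝ) : ℂ) := by
  rw [cj_real, Complex.mul_conj, Complex.normSq_eq_norm_sq]

/-- a number whose `e`-th power is real is a nonnegative multiple of a root of unity -/
lemma dir_exists {u : ℂ} {e : ℕ} (he : 1 ≤ e) (hu : (u ^ e).im = 0) :
    ∃ ω ∈ {x : ℂ | x ^ (2 * e) = 1}, u = (‖u‖ : ℂ) * ω := by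
  by_cases h0 : u = 0
  · refine ⟨1, by simp, ?_⟩
    simp [h0]
  · have hn : (‖u‖ : ℂ) ≠ 0 := by
      rw [Ne, Complex.ofReal_eq_zero, norm_eq_zero]; exact h0
    refine ⟨u / ‖u‖, ?_, ?_⟩
    · show (u / (‖u‖ : ℂ)) ^ (2 * e) = 1
      have h1 : u ^ e = ((u ^ e).re : ℂ) := by
        apply Complex.ext
        · simp
        · simp [hu]
      have h2 : ‖u‖ ^ e = |(u ^ e).re| := by
        rw [← norm_pow, h1, Complex.norm_real, Real.norm_eq_abs]
        simp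
      rw [div_pow, pow_mul' u, h1, pow_mul' (‖u‖ : ℂ), ← Complex.ofReal_pow (‖u‖) e, h2,
        ← Complex.ofReal_pow, ← Complex.ofReal_pow, sq_abs]
      refine div_self ?_
      rw [Ne, Complex.ofReal_eq_zero]
      have h3 : (u ^ e).re ≠ 0 := by
        intro h4
        rw [h4, Complex.ofReal_zero] at h1
        exact h0 (pow_eq_zero_iff (by omega) |>.1 h1)
      exact pow_ne_zero _ h3
    · field_simp

lemma roots_finite (n : ℕ) (hn : 1 ≤ n) (a : ℂ) : {x : ℂ | x ^ n = a}.Finite := by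
  classical
  refine ((Polynomial.nthRoots n a).toFinset.finite_toSet).subset ?_
  intro x hx
  rw [Finset.mem_coe, Multiset.mem_toFinset, Polynomial.mem_nthRoots (by omega)]
  exact hx

/-- the exponent parameter -/
noncomputable def par (ε rs : ℝ) (N : ℕ) (s : ℝ) : ℝ := (ε * (s ^ 2 - rs ^ 2)) ^ ((N : ℝ)⁻¹)

lemma par_pow {ε rs s : ℝ} {N : ℕ} (hN : 1 ≤ N) (h : 0 < ε * (s ^ 2 - rs ^ 2)) :
    par ε rs N s ^ N = ε * (s ^ 2 - rs ^ 2) :=
  Real.rpow_inv_natCast_pow h.le (by omega)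

lemma par_pos {ε rs s : ℝ} {N : ℕ} (h : 0 < ε * (s ^ 2 - rs ^ 2)) : 0 < par ε rs N s :=
  Real.rpow_pos_of_pos h _

lemma par_mul {ε rs s : ℝ} {d k : ℕ} (hd : 1 ≤ d) (hk : 1 ≤ k) (h : 0 < ε * (s ^ 2 - rs ^ 2)) :
    par ε rs (d * k) s ^ k = par ε rs d s := by
  have h1 : (par ε rs (d * k) s ^ k) ^ d = par ε rs d s ^ d := by
    rw [← pow_mul, mul_comm k d, par_pow (Nat.mul_pos hd hk) h, par_pow hd h]
  exact (pow_left_inj₀ (pow_nonneg (par_pos h).le _) (par_pos h).le (by omega)).1 h1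

/-- **one branch** -/
theorem branch (U : Ultrafilter ℝ) (rs : ℝ)
    (z : ℝ → ℂ) (p : ℂ) (hz : Tendsto z (U : Filter ℝ) (𝓝 p)) (hp : ‖p‖ = rs)
    (hzn : ∀ᶠ s in (U : Filter ℝ), ‖z s‖ = s) (F : ℂ → ℂ) (hF : AnalyticAt ℂ F p)
    (hFn : ¬ ∀ᶠ x in 𝓝 p, F x = F p) (hFr : ∀ᶠ s in (U : Filter ℝ), (F (z s)).im = 0)
    (ε : ℝ) (hε : ε = 1 ∨ ε = -1) (hεU : ∀ᶠ s in (U : Filter ℝ), 0 < ε * (s ^ 2 - rs ^ 2)) :
    ∃ d : ℕ, 1 ≤ d ∧ ∀ k : ℕ, 1 ≤ k → ∃ G : ℂ → ℂ, AnalyticAt ℂ G 0 ∧ G 0 = p ∧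
      ∀ᶠ s in (U : Filter ℝ), z s = G (par ε rs (d * k) s : ℝ) := by
  have hFlim : Tendsto (fun s => F (z s)) (U : Filter ℝ) (𝓝 (F p)) := hF.continuousAt.tendsto.comp hz
  have hFpr : (F p).im = 0 := by
    have h1 : Tendsto (fun s => (F (z s)).im) (U : Filter ℝ) (𝓝 (F p).im) :=
      (Complex.continuous_im.tendsto _).comp hFlim
    have h2 : Tendsto (fun s => (F (z s)).im) (U : Filter ℝ) (𝓝 0) :=
      tendsto_const_nhds.congr' (by filter_upwards [hFr] with s h using h.symm)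
    exact tendsto_nhds_unique h1 h2
  -- root of `F - F p`
  obtain ⟨e, he, φ, ψ, hφ, hψ, hφ0, hψ0, hψφ, hφψ, hFφ⟩ := Pool.Agent.W490.MX.root
    (fun x => F x - F p) p (hF.sub analyticAt_const) (sub_self _) (by
      intro h
      apply hFn
      filter_upwards [h] with x hx
      exact sub_eq_zero.1 hx)
  have hdir : ∀ᶠ s in (U : Filter ℝ), ∃ ω ∈ {x : ℂ | x ^ (2 * e) = 1},
      φ (z s) = (‖φ (z s)‖ : ℂ) * ω := by
    filter_upwards [hz.eventually hFφ, hFr] with s h1 h2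
    refine dir_exists he ?_
    rw [← h1, Complex.sub_im, h2, hFpr, sub_zero]
  obtain ⟨ω, hω, hωU⟩ := (Ultrafilter.eventually_exists_mem_iff
    (roots_finite (2 * e) (by omega) 1)).1 hdir
  -- the arc
  let γ : ℂ → ℂ := fun t => ψ (t * ω)
  have hγ : AnalyticAt ℂ γ 0 := by
    have h1 : AnalyticAt ℂ (fun t : ℂ => t * ω) 0 := analyticAt_id.mul analyticAt_const
    refine AnalyticAt.fun_comp (g := ψ) ?_ h1
    simpa using hψ
  have hγ0 : γ 0 = p := by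
    show ψ (0 * ω) = p
    rw [zero_mul, hψ0]
  let t : ℝ → ℝ := fun s => ‖φ (z s)‖
  have htlim : Tendsto (fun s => (t s : ℂ)) (U : Filter ℝ) (𝓝 0) := by
    have h1 : Tendsto (fun s => φ (z s)) (U : Filter ℝ) (𝓝 (φ p)) := hφ.continuousAt.tendsto.comp hz
    rw [hφ0] at h1
    have h2 := h1.norm
    rw [norm_zero] at h2
    have h3 := (Complex.continuous_ofReal.tendsto 0).comp h2
    rw [Complex.ofReal_zero] at h3
    exact h3
  have hzγ : ∀ᶠ s in (U : Filter ℝ), z s = γ (t s) := by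
    filter_upwards [hz.eventually hψφ, hωU] with s h1 h2
    show z s = ψ ((t s : ℂ) * ω)
    rw [← h2, h1]
  -- the square of the modulus along the arc
  have hcγ : AnalyticAt ℂ (cj γ) 0 := cj_analyticAt0 hγ
  have hR : AnalyticAt ℂ (fun x => γ x * cj γ x - (rs ^ 2 : ℝ)) 0 := (hγ.mul hcγ).sub analyticAt_const
  have hRs : ∀ᶠ s in (U : Filter ℝ), γ (t s) * cj γ (t s) - (rs ^ 2 : ℝ) = ((s ^ 2 - rs ^ 2 : ℝ) : ℂ) := by
    filter_upwards [hzγ, hzn] with s h1 h2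
    rw [mul_cj_real, ← h1, h2]
    push_cast
    ring
  obtain ⟨d, hd, ρ, χ, hρ, hχ, hρ0, hχ0, hχρ, hρχ, hRρ⟩ := Pool.Agent.W490.MX.root
    (fun x => γ x * cj γ x - (rs ^ 2 : ℝ)) 0 hR (by
      have h1 := mul_cj_real γ 0
      rw [Complex.ofReal_zero, hγ0, hp] at h1
      show γ 0 * cj γ 0 - (rs ^ 2 : ℝ) = 0
      rw [hγ0, h1, sub_self]) (by
      intro h
      have h1 : ∀ᶠ s in (U : Filter ℝ), False := by
        filter_upwards [htlim.eventually h, hRs, hεU] with s h1 h2 h3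
        rw [h1] at h2
        have h4 : s ^ 2 - rs ^ 2 = 0 := by exact_mod_cast h2.symm
        rw [h4, mul_zero] at h3
        exact lt_irrefl _ h3
      exact absurd h1 (by simp [U.neBot.ne]))
  have hεε : ε * ε = 1 := by rcases hε with h | h <;> rw [h] <;> norm_num
  have hζ : ∀ᶠ s in (U : Filter ℝ), ∃ ζ ∈ {x : ℂ | x ^ d = (ε : ℂ)},
      ρ (t s) = ζ * (par ε rs d s : ℝ) := by
    filter_upwards [htlim.eventually hRρ, hRs, hεU] with s h1 h2 h3
    have hp0 : ((par ε rs d s : ℝ) : ℂ) ≠ 0 := by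
      rw [Ne, Complex.ofReal_eq_zero]; exact (par_pos h3).ne'
    refine ⟨ρ (t s) / (par ε rs d s : ℝ), ?_, (div_mul_cancel₀ _ hp0).symm⟩
    show (ρ (t s) / (par ε rs d s : ℝ)) ^ d = (ε : ℂ)
    rw [div_pow, ← h1, h2, ← Complex.ofReal_pow, par_pow hd h3, ← Complex.ofReal_div]
    congr 1
    have h4 : s ^ 2 - rs ^ 2 ≠ 0 := by
      intro h5; rw [h5, mul_zero] at h3; exact lt_irrefl _ h3
    have h5 : ε ≠ 0 := by
      intro h6; rw [h6, zero_mul] at h3; exact lt_irrefl _ h3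
    field_simp
    nlinarith [hεε]
  obtain ⟨ζ, -, hζU⟩ := (Ultrafilter.eventually_exists_mem_iff
    (roots_finite d hd (ε : ℂ))).1 hζ
  refine ⟨d, hd, fun k hk => ⟨fun x => γ (χ (ζ * x ^ k)), ?_, ?_, ?_⟩⟩
  · have h1 : AnalyticAt ℂ (fun x : ℂ => ζ * x ^ k) 0 := analyticAt_const.mul (analyticAt_id.pow k)
    have h0 : ζ * (0 : ℂ) ^ k = 0 := by rw [zero_pow (by omega), mul_zero]
    have h2 : AnalyticAt ℂ (fun x : ℂ => χ (ζ * x ^ k)) 0 := by
      refine AnalyticAt.fun_comp (g := χ) ?_ h1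
      rw [h0]; exact hχ
    refine AnalyticAt.fun_comp (g := γ) ?_ h2
    show AnalyticAt ℂ γ (χ (ζ * (0 : ℂ) ^ k))
    rw [h0, hχ0]
    exact hγ
  · show γ (χ (ζ * (0 : ℂ) ^ k)) = p
    rw [zero_pow (by omega), mul_zero, hχ0, hγ0]
  · filter_upwards [hzγ, hζU, htlim.eventually hχρ, hεU] with s h1 h2 h3 h4
    show z s = γ (χ (ζ * ((par ε rs (d * k) s : ℝ) : ℂ) ^ k))
    rw [← Complex.ofReal_pow, par_mul hd hk h4, ← h2, h3, h1]

end Pool.Agent.KS6_13.MX
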