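import Pool.Agent.KS6_13.MX.Pui
import Pool.Graph.R_seed8.W863.MX.Init

/-! Accumulating radii with `K` maximum points give a simple point of the web. -/

set_option autoImplicit false

namespace Pool.Agent.KS6_13.MX

open Set Filter Topology Metric
open Pool.Agent.W587.MX

/-- analytic functions vanishing along the parameter vanish near `0` -/
lemma ident {H : ℂ → ℂ} (hH : AnalyticAt ℂ H 0) {l : Filter ℝ} [NeBot l] {τ : ℝ → ℝ}
    (hτ : Tendsto (fun s => (τ s : ℂ)) l (𝓝[≠] 0)) (h : ∀ᶠ s in l, H (τ s) = 0) :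
    ∀ᶠ t in 𝓝 (0 : ℂ), H t = 0 :=
  hH.frequently_zero_iff_eventually_zero.1 (hτ.frequently h.frequently)

/-- an analytic function with vanishing derivative is locally constant -/
lemma const_of_deriv {H : ℂ → ℂ} {a : ℂ} (hH : AnalyticAt ℂ H a)
    (h : ∀ᶠ t in 𝓝 a, deriv H t = 0) : ∀ᶠ t in 𝓝 a, H t = H a := by
  have h1 := hH.analyticOrderAt_deriv_add_one
  have h2 : analyticOrderAt (deriv H) a = ⊤ := analyticOrderAt_eq_top.2 h
  rw [h2, top_add] at h1
  have h3 := analyticOrderAt_eq_top.1 h1.symm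
  filter_upwards [h3] with t ht
  exact sub_eq_zero.1 ht

/-- at a maximum point on the circle `z f'(z)/f(z)` is real -/
lemma im_zero {f : ℂ → ℂ} (hf : Differentiable ℂ f) {z : ℂ} (hz : f z ≠ 0)
    (hmax : ∀ w, ‖w‖ = ‖z‖ → ‖f w‖ ≤ ‖f z‖) : (z * deriv f z / f z).im = 0 := by
  have hE : HasDerivAt (fun θ : ℝ => z * Complex.exp (Complex.I * θ)) (z * Complex.I) 0 := by
    have h1 : HasDerivAt (fun θ : ℝ => Complex.I * (θ : ℂ)) Complex.I 0 := by
      simpa using (Complex.ofRealCLM.hasDerivAt (x := (0 : ℝ))).const_mul Complex.I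
    have h2 := (h1.cexp).const_mul z
    simpa using h2
  have hfE : HasDerivAt (fun θ : ℝ => f (z * Complex.exp (Complex.I * θ)))
      (deriv f z * (z * Complex.I)) 0 := by
    have h3 : HasDerivAt f (deriv f z) (z * Complex.exp (Complex.I * ((0 : ℝ) : ℂ))) := by
      simpa using (hf z).hasDerivAt
    exact HasDerivAt.comp (0 : ℝ) h3 hE
  have hN : HasDerivAt (fun θ : ℝ => ‖f (z * Complex.exp (Complex.I * θ))‖ ^ 2)
      (2 * inner ℝ (f z) (deriv f z * (z * Complex.I))) 0 := by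
    have := hfE.norm_sq
    simpa using this
  have hloc : IsLocalMax (fun θ : ℝ => ‖f (z * Complex.exp (Complex.I * θ))‖ ^ 2) 0 := by
    refine Eventually.of_forall fun θ => ?_
    have h4 : ‖z * Complex.exp (Complex.I * θ)‖ = ‖z‖ := by
      rw [norm_mul, mul_comm Complex.I, Complex.norm_exp_ofReal_mul_I, mul_one]
    have h5 := hmax _ h4
    simp only [Complex.ofReal_zero, mul_zero, Complex.exp_zero, mul_one]
    exact pow_le_pow_left₀ (norm_nonneg _) h5 2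
  have h0 := hloc.hasDerivAt_eq_zero hN
  have h6 : inner ℝ (f z) (deriv f z * (z * Complex.I)) = 0 := by linarith
  rw [Complex.inner] at h6
  have h7 : z * deriv f z / f z = z * deriv f z * (starRingEnd ℂ) (f z) / ((‖f z‖ ^ 2 : ℝ) : ℂ) := by
    have h8 : ((‖f z‖ ^ 2 : ℝ) : ℂ) = f z * (starRingEnd ℂ) (f z) := by
      rw [Complex.mul_conj, Complex.normSq_eq_norm_sq]
    rw [h8]
    have h9 : (starRingEnd ℂ) (f z) ≠ 0 := (map_ne_zero _).2 hz
    field_simp
  rw [h7, Complex.div_ofReal_im]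
  have h10 : (z * deriv f z * (starRingEnd ℂ) (f z)).im = 0 := by
    have h11 : (deriv f z * (z * Complex.I) * (starRingEnd ℂ) (f z)).re
        = - (z * deriv f z * (starRingEnd ℂ) (f z)).im := by
      simp only [Complex.mul_re, Complex.mul_im, Complex.I_re, Complex.I_im, Complex.conj_re,
        Complex.conj_im]
      ring
    rw [h11] at h6
    linarith
  rw [h10, zero_div]

/-- nonconstancy of `z f'/f` near every point where `f ≠ 0` -/
lemma F_nonconst {f : ℂ → ℂ} (hf : Differentiable ℂ f) (hf0 : f 0 ≠ 0)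
    (hfd : ∃ z, deriv f z ≠ 0) {p : ℂ} (hp : f p ≠ 0) :
    ¬ ∀ᶠ x in 𝓝 p, x * deriv f x / f x = p * deriv f p / f p := by
  intro h
  have hfa : AnalyticOnNhd ℂ f univ := fun z _ => hf.analyticAt z
  have hda : AnalyticOnNhd ℂ (deriv f) univ := hfa.deriv
  set a := p * deriv f p / f p with ha
  have h1 : ∀ᶠ x in 𝓝 p, x * deriv f x = a * f x := by
    filter_upwards [h, hf.continuous.continuousAt.eventually_ne hp] with x h2 h3
    rw [← h2, div_mul_cancel₀ _ h3]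
  have h2 : AnalyticOnNhd ℂ (fun x => x * deriv f x) univ := fun z hz =>
    analyticAt_id.mul (hda z hz)
  have h3 : AnalyticOnNhd ℂ (fun x => a * f x) univ := fun z hz =>
    analyticAt_const.mul (hfa z hz)
  have h4 := h2.eq_of_eventuallyEq h3 (z₀ := p) h1
  have h5 : a = 0 := by
    have h6 := congrFun h4 0
    simp only [zero_mul] at h6
    exact (mul_eq_zero.1 h6.symm).resolve_right hf0
  have h6 : ∀ x, x ≠ 0 → deriv f x = 0 := by
    intro x hx
    have h7 := congrFun h4 x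
    simp only [h5, zero_mul] at h7
    exact (mul_eq_zero.1 h7).resolve_left hx
  obtain ⟨z, hz⟩ := hfd
  have h7 : Continuous (deriv f) := continuous_iff_continuousAt.2 fun x => (hda x (mem_univ _)).continuousAt
  have h8 : deriv f 0 = 0 := by
    have h9 : Tendsto (deriv f) (𝓝[≠] (0 : ℂ)) (𝓝 (deriv f 0)) :=
      (h7.tendsto 0).mono_left nhdsWithin_le_nhds
    have h10 : Tendsto (deriv f) (𝓝[≠] (0 : ℂ)) (𝓝 0) :=
      tendsto_const_nhds.congr' (by
        filter_upwards [self_mem_nhdsWithin] with x hx using (h6 x hx).symm)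
    exact tendsto_nhds_unique h9 h10
  by_cases hz0 : z = 0
  · rw [hz0] at hz; exact hz h8
  · exact hz (h6 z hz0)

/-- the common value of `z f'/f` along two branches -/
lemma common_value {f : ℂ → ℂ} (hf : Differentiable ℂ f) {rs2 ε : ℂ} {N : ℕ} (hN : 1 ≤ N)
    (hε : ε ≠ 0) {G H G' H' : ℂ → ℂ} {fs : ℂ → ℂ} (hfs : Differentiable ℂ fs) {t : ℂ} (ht : t ≠ 0)
    (hG : DifferentiableAt ℂ G t) (hH : DifferentiableAt ℂ H t)
    (hG' : DifferentiableAt ℂ G' t) (hH' : DifferentiableAt ℂ H' t)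
    (h1 : ∀ᶠ x in 𝓝 t, G x * H x = rs2 + ε * x ^ N)
    (h1' : ∀ᶠ x in 𝓝 t, G' x * H' x = rs2 + ε * x ^ N)
    (h2 : ∀ᶠ x in 𝓝 t, f (G x) * fs (H x) = f (G' x) * fs (H' x))
    (hr : G t * deriv f (G t) * fs (H t) = H t * deriv fs (H t) * f (G t))
    (hr' : G' t * deriv f (G' t) * fs (H' t) = H' t * deriv fs (H' t) * f (G' t))
    (n1 : f (G t) ≠ 0) (n2 : fs (H t) ≠ 0) (n3 : f (G' t) ≠ 0) (n4 : fs (H' t) ≠ 0)
    (n5 : G t ≠ 0) (n6 : H t ≠ 0) (n7 : G' t ≠ 0) (n8 : H' t ≠ 0) :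
    G t * deriv f (G t) / f (G t) = G' t * deriv f (G' t) / f (G' t) := by
  have e1 : ∀ {G H : ℂ → ℂ}, DifferentiableAt ℂ G t → DifferentiableAt ℂ H t →
      (∀ᶠ x in 𝓝 t, G x * H x = rs2 + ε * x ^ N) →
      deriv G t * H t + G t * deriv H t = ε * (N * t ^ (N - 1)) := by
    intro G H hG hH h
    have a1 : HasDerivAt (fun x => G x * H x) (deriv G t * H t + G t * deriv H t) t :=
      hG.hasDerivAt.mul hH.hasDerivAt
    have a2 : HasDerivAt (fun x : ℂ => rs2 + ε * x ^ N) (ε * (N * t ^ (N - 1))) t :=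
      ((hasDerivAt_pow N t).const_mul ε).const_add rs2
    exact (a1.congr_of_eventuallyEq (EventuallyEq.symm h)).unique a2
  have b1 := e1 hG hH h1
  have b2 := e1 hG' hH' h1'
  have e2 : ∀ {G H : ℂ → ℂ}, DifferentiableAt ℂ G t → DifferentiableAt ℂ H t →
      HasDerivAt (fun x => f (G x) * fs (H x))
        (deriv f (G t) * deriv G t * fs (H t) + f (G t) * (deriv fs (H t) * deriv H t)) t := by
    intro G H hG hH
    exact ((hf _).hasDerivAt.comp t hG.hasDerivAt).mul ((hfs _).hasDerivAt.comp t hH.hasDerivAt)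
  have c := ((e2 hG hH).congr_of_eventuallyEq (EventuallyEq.symm h2)).unique (e2 hG' hH')
  have c0 := h2.self_of_nhds
  have d1 := h1.self_of_nhds
  have d2 := h1'.self_of_nhds
  set Q : ℂ := ε * (N * t ^ (N - 1)) with hQ
  have hQ0 : Q ≠ 0 := by
    rw [hQ]
    refine mul_ne_zero hε (mul_ne_zero ?_ (pow_ne_zero _ ht))
    have : N ≠ 0 := by omega
    exact_mod_cast this
  set P : ℂ := rs2 + ε * t ^ N with hP
  have hP0 : P ≠ 0 := by rw [← d1]; exact mul_ne_zero n5 n6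
  -- derivative of the product, expressed through `A`
  have key : ∀ {g h fg fh dg dh Dg Dh : ℂ}, fg ≠ 0 → fh ≠ 0 → g ≠ 0 → h ≠ 0 → g * h = P →
      Dg * h + g * Dh = Q → g * dg * fh = h * dh * fg →
      dg * Dg * fh + fg * (dh * Dh) = (g * dg / fg) * (Q / P) * (fg * fh) := by
    intro g h fg fh dg dh Dg Dh m1 m2 m3 m4 m5 m6 m7
    rw [← m6, ← m5]
    have m8 : dh = g * dg * fh / (h * fg) := by
      rw [eq_div_iff (mul_ne_zero m4 m1)]
      linear_combination - m7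
    rw [m8]
    field_simp
  have k1 := key n1 n2 n5 n6 d1 b1 hr
  have k2 := key n3 n4 n7 n8 d2 b2 hr'
  rw [k1, k2, ← c0] at c
  have hne : Q / P * (f (G t) * fs (H t)) ≠ 0 :=
    mul_ne_zero (div_ne_zero hQ0 hP0) (mul_ne_zero n1 n2)
  have c' : (G t * deriv f (G t) / f (G t)) * (Q / P * (f (G t) * fs (H t))) =
      (G' t * deriv f (G' t) / f (G' t)) * (Q / P * (f (G t) * fs (H t))) := by
    linear_combination c
  exact mul_right_cancel₀ hne c'

/-- **radii with `K` maximum points accumulating at `rs` give a simple point** -/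
theorem web {f : ℂ → ℂ} (hf : Differentiable ℂ f) (hf0 : f 0 ≠ 0) (hfd : ∃ z, deriv f z ≠ 0)
    {K : ℕ} (hK : 0 < K) {rs : ℝ} (U : Ultrafilter ℝ) (hU : (U : Filter ℝ) ≤ 𝓝[≠] rs)
    (hUpos : ∀ᶠ s in (U : Filter ℝ), 0 < s)
    (hUK : ∀ᶠ s in (U : Filter ℝ),
      (K : ℕ∞) ≤ {z : ℂ | ‖z‖ = s ∧ ∀ w, ‖w‖ = s → ‖f w‖ ≤ ‖f z‖}.encard) :
    ∃ a0 z w, SP f (cj f) K a0 z w := by
  classical
  have hU2 : (U : Filter ℝ) ≤ 𝓝 rs := hU.trans nhdsWithin_le_nhds
  have hUne : ∀ᶠ s in (U : Filter ℝ), s ≠ rs := hU self_mem_nhdsWithin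
  have hUid : Tendsto (fun s : ℝ => s) (U : Filter ℝ) (𝓝 rs) := hU2
  have hrs : 0 ≤ rs := ge_of_tendsto hUid (hUpos.mono fun s h => h.le)
  -- maximum points
  have hch : ∀ s : ℝ, ∃ z : Fin K → ℂ,
      ((K : ℕ∞) ≤ {z : ℂ | ‖z‖ = s ∧ ∀ w, ‖w‖ = s → ‖f w‖ ≤ ‖f z‖}.encard →
      Function.Injective z ∧ ∀ i, ‖z i‖ = s ∧ ∀ w, ‖w‖ = s → ‖f w‖ ≤ ‖f (z i)‖) := by
    intro s
    by_cases h : (K : ℕ∞) ≤ {z : ℂ | ‖z‖ = s ∧ ∀ w, ‖w‖ = s → ‖f w‖ ≤ ‖f z‖}.encard
    · obtain ⟨z, hz1, hz2⟩ := Pool.Agent.W863.MX.choose_pts h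
      exact ⟨z, fun _ => ⟨hz1, hz2⟩⟩
    · exact ⟨fun _ => 0, fun h1 => absurd h1 h⟩
  choose z hz using hch
  have hzinj : ∀ᶠ s in (U : Filter ℝ), Function.Injective (z s) := hUK.mono fun s h => (hz s h).1
  have hznorm : ∀ i, ∀ᶠ s in (U : Filter ℝ), ‖z s i‖ = s := fun i =>
    hUK.mono fun s h => ((hz s h).2 i).1
  have hzmax : ∀ i, ∀ᶠ s in (U : Filter ℝ), ∀ w, ‖w‖ = s → ‖f w‖ ≤ ‖f (z s i)‖ := fun i =>
    hUK.mono fun s h => ((hz s h).2 i).2
  have hz0 : ∀ i, ∀ᶠ s in (U : Filter ℝ), ‖f 0‖ ≤ ‖f (z s i)‖ := by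
    intro i
    filter_upwards [hzmax i, hUpos] with s h1 h2
    refine Complex.norm_le_of_forall_mem_frontier_norm_le (U := ball (0 : ℂ) s) isBounded_ball
      hf.diffContOnCl ?_ (subset_closure (mem_ball_self h2))
    intro w hw
    rw [frontier_ball (0 : ℂ) h2.ne', mem_sphere_zero_iff_norm] at hw
    exact h1 w hw
  -- limits
  have hlim : ∀ i, ∃ x : ℂ, Tendsto (fun s => z s i) (U : Filter ℝ) (𝓝 x) := by
    intro i
    have hcomp : IsCompact (closedBall (0 : ℂ) (rs + 1)) := isCompact_closedBall _ _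
    have hle : ((U.map (fun s => z s i) : Ultrafilter ℂ) : Filter ℂ)
        ≤ 𝓟 (closedBall (0 : ℂ) (rs + 1)) := by
      rw [le_principal_iff]
      show (fun s => z s i) ⁻¹' (closedBall (0 : ℂ) (rs + 1)) ∈ (U : Filter ℝ)
      have h1 : ∀ᶠ s in (U : Filter ℝ), s < rs + 1 := hU2 (gt_mem_nhds (by linarith))
      filter_upwards [h1, hznorm i] with s h2 h3
      show z s i ∈ closedBall (0 : ℂ) (rs + 1)
      rw [mem_closedBall_zero_iff, h3]
      exact h2.le
    obtain ⟨x, _, hx⟩ := hcomp.ultrafilter_le_nhds _ hle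
    exact ⟨x, hx⟩
  choose p hp using hlim
  have hpn : ∀ i, ‖p i‖ = rs := by
    intro i
    have h1 : Tendsto (fun s => ‖z s i‖) (U : Filter ℝ) (𝓝 ‖p i‖) := (hp i).norm
    have h2 : Tendsto (fun s => ‖z s i‖) (U : Filter ℝ) (𝓝 rs) := by
      refine hUid.congr' ?_
      filter_upwards [hznorm i] with s h using h.symm
    exact tendsto_nhds_unique h1 h2
  have hf0' : 0 < ‖f 0‖ := norm_pos_iff.2 hf0
  have hfp : ∀ i, f (p i) ≠ 0 := by
    intro i
    have h1 : Tendsto (fun s => ‖f (z s i)‖) (U : Filter ℝ) (𝓝 ‖f (p i)‖) :=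
      ((hf.continuous.tendsto (p i)).comp (hp i)).norm
    exact norm_pos_iff.1 (hf0'.trans_le (ge_of_tendsto h1 (hz0 i)))
  have hfz : ∀ i, ∀ᶠ s in (U : Filter ℝ), f (z s i) ≠ 0 := fun i =>
    (hz0 i).mono fun s h => norm_pos_iff.1 (hf0'.trans_le h)
  -- the function `F`
  obtain ⟨F, hFdef⟩ : ∃ F : ℂ → ℂ, F = fun x => x * deriv f x / f x := ⟨_, rfl⟩
  have hFa : ∀ x, f x ≠ 0 → AnalyticAt ℂ F x := by
    intro x hx
    rw [hFdef]
    exact (analyticAt_id.mul (hf.analyticAt x).deriv).div (hf.analyticAt x) hx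
  have hFn : ∀ i, ¬ ∀ᶠ x in 𝓝 (p i), F x = F (p i) := by
    intro i
    rw [hFdef]
    exact F_nonconst hf hf0 hfd (hfp i)
  have hFr : ∀ i, ∀ᶠ s in (U : Filter ℝ), (F (z s i)).im = 0 := by
    intro i
    filter_upwards [hznorm i, hzmax i, hfz i] with s h1 h2 h3
    rw [hFdef]
    refine im_zero hf h3 ?_
    rw [h1]
    exact h2
  -- the side
  obtain ⟨ε, hε, hεU⟩ : ∃ ε : ℝ, (ε = 1 ∨ ε = -1) ∧
      ∀ᶠ s in (U : Filter ℝ), 0 < ε * (s ^ 2 - rs ^ 2) := by
    have h1 : ∀ᶠ s in (U : Filter ℝ), rs < s ∨ s < rs := hUne.mono fun s h => h.symm.lt_or_gt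
    rcases Ultrafilter.eventually_or.1 h1 with h2 | h2
    · refine ⟨1, Or.inl rfl, ?_⟩
      filter_upwards [h2, hUpos] with s h3 h4
      nlinarith
    · refine ⟨-1, Or.inr rfl, ?_⟩
      filter_upwards [h2, hUpos] with s h3 h4
      nlinarith
  have hε0 : (ε : ℂ) ≠ 0 := by
    rw [Ne, Complex.ofReal_eq_zero]
    rcases hε with h | h <;> rw [h] <;> norm_num
  -- the branches
  have hbr := fun i => branch U rs (fun s => z s i) (p i) (hp i) (hpn i) (hznorm i) F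
    (hFa _ (hfp i)) (hFn i) (hFr i) ε hε hεU
  choose d hd hG using hbr
  obtain ⟨N, hNdef⟩ : ∃ N : ℕ, N = ∏ i, d i := ⟨_, rfl⟩
  have hN : 1 ≤ N := by
    rw [hNdef]
    exact Nat.one_le_iff_ne_zero.2 (Finset.prod_ne_zero_iff.2 fun i _ =>
      Nat.one_le_iff_ne_zero.1 (hd i))
  have hGi : ∀ i, ∃ G : ℂ → ℂ, AnalyticAt ℂ G 0 ∧ G 0 = p i ∧
      ∀ᶠ s in (U : Filter ℝ), z s i = G (par ε rs N s : ℝ) := by
    intro i
    have h1 : N = d i * ∏ j ∈ Finset.univ.erase i, d j := by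
      rw [hNdef, Finset.mul_prod_erase Finset.univ d (Finset.mem_univ i)]
    rw [h1]
    exact hG i _ (Nat.one_le_iff_ne_zero.2 (Finset.prod_ne_zero_iff.2 fun j _ =>
      Nat.one_le_iff_ne_zero.1 (hd j)))
  choose G hGa hG0 hGz using hGi
  have hHa : ∀ i, AnalyticAt ℂ (cj (G i)) 0 := fun i => cj_analyticAt0 (hGa i)
  have hH0 : ∀ i, cj (G i) 0 = (starRingEnd ℂ) (p i) := by
    intro i
    show (starRingEnd ℂ) (G i ((starRingEnd ℂ) 0)) = _
    rw [map_zero, hG0]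
  -- the parameter
  obtain ⟨τ, hτdef⟩ : ∃ τ : ℝ → ℝ, τ = fun s => par ε rs N s := ⟨_, rfl⟩
  have hτpos : ∀ᶠ s in (U : Filter ℝ), 0 < τ s := by
    filter_upwards [hεU] with s h
    rw [hτdef]; exact par_pos h
  have hτN : ∀ᶠ s in (U : Filter ℝ), (τ s) ^ N = ε * (s ^ 2 - rs ^ 2) := by
    filter_upwards [hεU] with s h
    rw [hτdef]; exact par_pow hN h
  have hτlim0 : Tendsto τ (U : Filter ℝ) (𝓝 0) := by
    have h1 : Tendsto (fun s : ℝ => ε * (s ^ 2 - rs ^ 2)) (U : Filter ℝ) (𝓝 0) := by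
      have h2 : Continuous (fun s : ℝ => ε * (s ^ 2 - rs ^ 2)) := by fun_prop
      have h3 := (h2.tendsto rs).mono_left hU2
      simpa using h3
    have h2 : Continuous (fun x : ℝ => x ^ ((N : ℝ)⁻¹)) :=
      Real.continuous_rpow_const (by positivity)
    have h3 := (h2.tendsto 0).comp h1
    rw [Real.zero_rpow (by
      have : (N : ℝ) ≠ 0 := by
        have : N ≠ 0 := by omega
        exact_mod_cast this
      exact inv_ne_zero this)] at h3
    rw [hτdef]
    exact h3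
  have hτ : Tendsto (fun s => (τ s : ℂ)) (U : Filter ℝ) (𝓝[≠] 0) := by
    refine tendsto_nhdsWithin_iff.2 ⟨?_, ?_⟩
    · have := (Complex.continuous_ofReal.tendsto 0).comp hτlim0
      rw [Complex.ofReal_zero] at this
      exact this
    · filter_upwards [hτpos] with s h
      show (τ s : ℂ) ≠ 0
      rw [Ne, Complex.ofReal_eq_zero]
      exact h.ne'
  have hGz' : ∀ i, ∀ᶠ s in (U : Filter ℝ), G i (τ s) = z s i := by
    intro i
    filter_upwards [hGz i] with s h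
    rw [hτdef]; exact h.symm
  have hHz' : ∀ i, ∀ᶠ s in (U : Filter ℝ), cj (G i) (τ s) = (starRingEnd ℂ) (z s i) := by
    intro i
    filter_upwards [hGz' i] with s h
    rw [cj_real, h]
  -- analyticity
  have hcd : Differentiable ℂ (cj f) := (Pool.Agent.W715.MX.p4_conj f hf).1
  have hcdd : ∀ w, deriv (cj f) w = (starRingEnd ℂ) (deriv f ((starRingEnd ℂ) w)) :=
    (Pool.Agent.W715.MX.p4_conj f hf).2.1
  have hfG : ∀ i, AnalyticAt ℂ (fun t => f (G i t)) 0 := fun i =>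
    AnalyticAt.fun_comp (hf.analyticAt _) (hGa i)
  have hdG : ∀ i, AnalyticAt ℂ (fun t => deriv f (G i t)) 0 := fun i =>
    AnalyticAt.fun_comp (g := deriv f) (hf.analyticAt _).deriv (hGa i)
  have hcH : ∀ i, AnalyticAt ℂ (fun t => cj f (cj (G i) t)) 0 := fun i =>
    AnalyticAt.fun_comp (hcd.analyticAt _) (hHa i)
  have hdH : ∀ i, AnalyticAt ℂ (fun t => deriv (cj f) (cj (G i) t)) 0 := fun i =>
    AnalyticAt.fun_comp (g := deriv (cj f)) (hcd.analyticAt _).deriv (hHa i)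
  -- (1)
  have hI1 : ∀ i, ∀ᶠ t in 𝓝 (0 : ℂ), G i t * cj (G i) t = ((rs ^ 2 : ℝ) : ℂ) + (ε : ℂ) * t ^ N := by
    intro i
    have h1 := ident (H := fun t => G i t * cj (G i) t - (((rs ^ 2 : ℝ) : ℂ) + (ε : ℂ) * t ^ N))
      (((hGa i).mul (hHa i)).sub (analyticAt_const.add (analyticAt_const.mul (analyticAt_id.pow N))))
      hτ (by
        filter_upwards [hGz' i, hHz' i, hznorm i, hτN] with s h1 h2 h3 h4
        rw [h1, h2, Complex.mul_conj, Complex.normSq_eq_norm_sq, h3, ← Complex.ofReal_pow, h4]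
        have hεε : (ε : ℂ) * (ε : ℂ) = 1 := by
          rcases hε with h | h <;> rw [h] <;> push_cast <;> ring
        push_cast
        linear_combination (- ((s : ℂ) ^ 2 - (rs : ℂ) ^ 2)) * hεε)
    filter_upwards [h1] with t ht
    exact sub_eq_zero.1 ht
  -- (2)
  have hI2 : ∀ i j, ∀ᶠ t in 𝓝 (0 : ℂ),
      f (G i t) * cj f (cj (G i) t) = f (G j t) * cj f (cj (G j) t) := by
    intro i j
    have h1 := ident (H := fun t => f (G i t) * cj f (cj (G i) t) - f (G j t) * cj f (cj (G j) t))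
      (((hfG i).mul (hcH i)).sub ((hfG j).mul (hcH j))) hτ (by
        filter_upwards [hGz' i, hHz' i, hGz' j, hHz' j, hznorm i, hznorm j, hzmax i, hzmax j] with
          s h1 h2 h3 h4 h5 h6 h7 h8
        have e : ∀ x : ℂ, f x * cj f ((starRingEnd ℂ) x) = ((‖f x‖ ^ 2 : ℝ) : ℂ) := by
          intro x
          show f x * (starRingEnd ℂ) (f ((starRingEnd ℂ) ((starRingEnd ℂ) x))) = _
          rw [Complex.conj_conj, Complex.mul_conj, Complex.normSq_eq_norm_sq]
        rw [h1, h2, h3, h4, e, e, le_antisymm (h8 _ h5) (h7 _ h6), sub_self])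
    filter_upwards [h1] with t ht
    exact sub_eq_zero.1 ht
  -- (3)
  have hI3 : ∀ i, ∀ᶠ t in 𝓝 (0 : ℂ), G i t * deriv f (G i t) * cj f (cj (G i) t) =
      cj (G i) t * deriv (cj f) (cj (G i) t) * f (G i t) := by
    intro i
    have h1 := ident (H := fun t => G i t * deriv f (G i t) * cj f (cj (G i) t) -
      cj (G i) t * deriv (cj f) (cj (G i) t) * f (G i t))
      ((((hGa i).mul (hdG i)).mul (hcH i)).sub (((hHa i).mul (hdH i)).mul (hfG i))) hτ (by
        filter_upwards [hGz' i, hHz' i, hFr i, hfz i] with s h1 h2 h3 h4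
        rw [h1, h2, hcdd, Complex.conj_conj]
        have e1 : cj f ((starRingEnd ℂ) (z s i)) = (starRingEnd ℂ) (f (z s i)) := by
          show (starRingEnd ℂ) (f ((starRingEnd ℂ) ((starRingEnd ℂ) (z s i)))) = _
          rw [Complex.conj_conj]
        rw [e1]
        have e2 : (starRingEnd ℂ) (F (z s i)) = F (z s i) := Complex.conj_eq_iff_im.2 h3
        have e3 : z s i * deriv f (z s i) = F (z s i) * f (z s i) := by
          rw [hFdef]
          show z s i * deriv f (z s i) = z s i * deriv f (z s i) / f (z s i) * f (z s i)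
          rw [div_mul_cancel₀ _ h4]
        have e4 : (starRingEnd ℂ) (z s i) * (starRingEnd ℂ) (deriv f (z s i)) =
            F (z s i) * (starRingEnd ℂ) (f (z s i)) := by
          rw [← map_mul, e3, map_mul, e2]
        rw [e3, e4]
        ring)
    filter_upwards [h1] with t ht
    exact sub_eq_zero.1 ht
  -- (4)
  have hI4 : ∀ i j, i ≠ j → ∀ᶠ t in 𝓝[≠] (0 : ℂ), G i t ≠ G j t := by
    intro i j hij
    rcases ((hGa i).sub (hGa j)).eventually_eq_zero_or_eventually_ne_zero with h | h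
    · exfalso
      have h1 : ∀ᶠ s in (U : Filter ℝ), False := by
        filter_upwards [(hτ.mono_right nhdsWithin_le_nhds).eventually h, hGz' i, hGz' j, hzinj] with
          s h1 h2 h3 h4
        rw [Pi.sub_apply, h2, h3] at h1
        exact hij (h4 (sub_eq_zero.1 h1))
      exact absurd h1 (by simp [U.neBot.ne])
    · filter_upwards [h] with t ht
      intro h1
      apply ht
      rw [Pi.sub_apply, h1, sub_self]
  -- nonvanishing
  have hn1 : ∀ i, ∀ᶠ t in 𝓝 (0 : ℂ), f (G i t) ≠ 0 := fun i =>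
    (hfG i).continuousAt.eventually_ne (by show f (G i 0) ≠ 0; rw [hG0]; exact hfp i)
  have hn2 : ∀ i, ∀ᶠ t in 𝓝 (0 : ℂ), cj f (cj (G i) t) ≠ 0 := fun i =>
    (hcH i).continuousAt.eventually_ne (by
      show cj f (cj (G i) 0) ≠ 0
      rw [hH0]
      show (starRingEnd ℂ) (f ((starRingEnd ℂ) ((starRingEnd ℂ) (p i)))) ≠ 0
      rw [Complex.conj_conj]
      exact (map_ne_zero _).2 (hfp i))
  have hn3 : ∀ i, ∀ᶠ t in 𝓝[≠] (0 : ℂ), G i t * cj (G i) t ≠ 0 := by
    intro i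
    rcases ((hGa i).mul (hHa i)).eventually_eq_zero_or_eventually_ne_zero with h | h
    · exfalso
      have h1 : ∀ᶠ s in (U : Filter ℝ), False := by
        filter_upwards [(hτ.mono_right nhdsWithin_le_nhds).eventually h, hGz' i, hHz' i,
          hznorm i, hUpos] with s h1 h2 h3 h4 h5
        rw [Pi.mul_apply, h2, h3, Complex.mul_conj, Complex.normSq_eq_norm_sq, h4] at h1
        have h6 : s ^ 2 = 0 := by exact_mod_cast h1
        exact h5.ne' (pow_eq_zero_iff (two_ne_zero) |>.1 h6)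
      exact absurd h1 (by simp [U.neBot.ne])
    · exact h
  -- the common value
  have hA : ∀ i j, ∀ᶠ t in 𝓝[≠] (0 : ℂ), F (G i t) = F (G j t) := by
    intro i j
    have a1 := (hGa i).eventually_analyticAt.filter_mono (nhdsWithin_le_nhds (s := {(0 : ℂ)}ᶜ))
    have a2 := (hHa i).eventually_analyticAt.filter_mono (nhdsWithin_le_nhds (s := {(0 : ℂ)}ᶜ))
    have a3 := (hGa j).eventually_analyticAt.filter_mono (nhdsWithin_le_nhds (s := {(0 : ℂ)}ᶜ))
    have a4 := (hHa j).eventually_analyticAt.filter_mono (nhdsWithin_le_nhds (s := {(0 : ℂ)}ᶜ))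
    have b1 := (hI1 i).eventually_nhds.filter_mono (nhdsWithin_le_nhds (s := {(0 : ℂ)}ᶜ))
    have b2 := (hI1 j).eventually_nhds.filter_mono (nhdsWithin_le_nhds (s := {(0 : ℂ)}ᶜ))
    have b3 := (hI2 i j).eventually_nhds.filter_mono (nhdsWithin_le_nhds (s := {(0 : ℂ)}ᶜ))
    have b4 := (hI3 i).filter_mono (nhdsWithin_le_nhds (s := {(0 : ℂ)}ᶜ))
    have b5 := (hI3 j).filter_mono (nhdsWithin_le_nhds (s := {(0 : ℂ)}ᶜ))
    have c1 := (hn1 i).filter_mono (nhdsWithin_le_nhds (s := {(0 : ℂ)}ᶜ))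
    have c2 := (hn2 i).filter_mono (nhdsWithin_le_nhds (s := {(0 : ℂ)}ᶜ))
    have c3 := (hn1 j).filter_mono (nhdsWithin_le_nhds (s := {(0 : ℂ)}ᶜ))
    have c4 := (hn2 j).filter_mono (nhdsWithin_le_nhds (s := {(0 : ℂ)}ᶜ))
    filter_upwards [a1, a2, a3, a4, b1, b2, b3, b4, b5, c1, c2, c3, c4, hn3 i, hn3 j,
      self_mem_nhdsWithin] with t a1 a2 a3 a4 b1 b2 b3 b4 b5 c1 c2 c3 c4 d1 d2 ht
    rw [hFdef]
    exact common_value hf hN hε0 hcd ht a1.differentiableAt a2.differentiableAt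
      a3.differentiableAt a4.differentiableAt b1 b2 b3 b4 b5 c1 c2 c3 c4 (left_ne_zero_of_mul d1)
      (right_ne_zero_of_mul d1) (left_ne_zero_of_mul d2) (right_ne_zero_of_mul d2)
  obtain ⟨i0⟩ : Nonempty (Fin K) := ⟨⟨0, hK⟩⟩
  obtain ⟨A, hAdef⟩ : ∃ A : ℂ → ℂ, A = fun t => F (G i0 t) := ⟨_, rfl⟩
  have hAa : AnalyticAt ℂ A 0 := by
    rw [hAdef]
    exact AnalyticAt.fun_comp (g := F) (hFa _ (by rw [hG0]; exact hfp i0)) (hGa i0)
  have hAn : ¬ ∀ᶠ t in 𝓝 (0 : ℂ), A t = A 0 := by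
    intro h
    have h1 : ∀ᶠ x in 𝓝[≠] (p i0), F x ≠ F (p i0) := by
      have h2 : AnalyticAt ℂ (fun x => F x - F (p i0)) (p i0) :=
        (hFa _ (hfp i0)).sub analyticAt_const
      rcases h2.eventually_eq_zero_or_eventually_ne_zero with h3 | h3
      · exact absurd (h3.mono fun x hx => sub_eq_zero.1 hx) (hFn i0)
      · exact h3.mono fun x hx h4 => hx (by rw [h4, sub_self])
    rw [eventually_nhdsWithin_iff] at h1
    have h2 : Tendsto (G i0) (𝓝 0) (𝓝 (p i0)) := by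
      have := (hGa i0).continuousAt.tendsto
      rwa [hG0] at this
    have h3 : ∀ᶠ s in (U : Filter ℝ), False := by
      filter_upwards [(hτ.mono_right nhdsWithin_le_nhds).eventually h,
        (hτ.mono_right nhdsWithin_le_nhds).eventually (h2.eventually h1), hGz' i0, hznorm i0,
        hUne] with s h4 h5 h6 h7 h8
      have h9 : z s i0 ≠ p i0 := by
        intro h10
        rw [h10, hpn] at h7
        exact h8 h7.symm
      rw [h6] at h5
      apply h5 h9
      rw [hAdef] at h4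
      simp only [hG0] at h4
      rw [← h4, h6]
    exact absurd h3 (by simp [U.neBot.ne])
  have hA1 : ∀ᶠ t in 𝓝[≠] (0 : ℂ), deriv A t ≠ 0 := by
    rcases hAa.deriv.eventually_eq_zero_or_eventually_ne_zero with h | h
    · exact absurd (const_of_deriv hAa h) hAn
    · exact h
  have hA2 : ∀ᶠ t in 𝓝[≠] (0 : ℂ), A t ≠ 0 := by
    rcases hAa.eventually_eq_zero_or_eventually_ne_zero with h | h
    · exact absurd (h.mono fun t ht => by rw [ht, h.self_of_nhds]) hAn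
    · exact h
  -- choose a good parameter
  have hgood : ∀ᶠ t in 𝓝[≠] (0 : ℂ), t ≠ 0 ∧ deriv A t ≠ 0 ∧ A t ≠ 0 ∧ AnalyticAt ℂ A t ∧
      (∀ i j, i ≠ j → G i t ≠ G j t) ∧
      (∀ i, AnalyticAt ℂ (G i) t ∧ AnalyticAt ℂ (cj (G i)) t ∧ f (G i t) ≠ 0 ∧
        cj f (cj (G i) t) ≠ 0 ∧ (∀ᶠ x in 𝓝 t, A x = F (G i x)) ∧
        (∀ᶠ x in 𝓝 t, G i x * cj (G i) x = ((rs ^ 2 : ℝ) : ℂ) + (ε : ℂ) * x ^ N) ∧
        (∀ᶠ x in 𝓝 t, G i x * deriv f (G i x) * cj f (cj (G i) x) =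
          cj (G i) x * deriv (cj f) (cj (G i) x) * f (G i x))) := by
    have h4 : ∀ᶠ t in 𝓝[≠] (0 : ℂ), ∀ i j, i ≠ j → G i t ≠ G j t := by
      rw [eventually_all]
      intro i
      rw [eventually_all]
      intro j
      by_cases hij : i = j
      · exact Eventually.of_forall fun t h => absurd hij h
      · exact (hI4 i j hij).mono fun t ht _ => ht
    have h5 : ∀ᶠ t in 𝓝[≠] (0 : ℂ), ∀ i, AnalyticAt ℂ (G i) t ∧ AnalyticAt ℂ (cj (G i)) t ∧
        f (G i t) ≠ 0 ∧ cj f (cj (G i) t) ≠ 0 ∧ (∀ᶠ x in 𝓝 t, A x = F (G i x)) ∧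
        (∀ᶠ x in 𝓝 t, G i x * cj (G i) x = ((rs ^ 2 : ℝ) : ℂ) + (ε : ℂ) * x ^ N) ∧
        (∀ᶠ x in 𝓝 t, G i x * deriv f (G i x) * cj f (cj (G i) x) =
          cj (G i) x * deriv (cj f) (cj (G i) x) * f (G i x)) := by
      rw [eventually_all]
      intro i
      have e1 : ∀ᶠ t in 𝓝[≠] (0 : ℂ), ∀ᶠ x in 𝓝 t, A x = F (G i x) := by
        have h6 := eventually_eventually_nhdsWithin.2 (hA i0 i)
        filter_upwards [h6, self_mem_nhdsWithin] with t h7 h8
        rw [hAdef]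
        rw [isOpen_compl_singleton.nhdsWithin_eq h8] at h7
        exact h7
      have e0 : 𝓝[≠] (0 : ℂ) ≤ 𝓝 0 := nhdsWithin_le_nhds
      filter_upwards [(hGa i).eventually_analyticAt.filter_mono e0,
        (hHa i).eventually_analyticAt.filter_mono e0, (hn1 i).filter_mono e0,
        (hn2 i).filter_mono e0, e1, (hI1 i).eventually_nhds.filter_mono e0,
        (hI3 i).eventually_nhds.filter_mono e0] with t a1 a2 a3 a4 a5 a6 a7
      exact ⟨a1, a2, a3, a4, a5, a6, a7⟩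
    filter_upwards [self_mem_nhdsWithin, hA1, hA2,
      hAa.eventually_analyticAt.filter_mono nhdsWithin_le_nhds, h4, h5] with t b1 b2 b3 b4 b5 b6
    exact ⟨b1, b2, b3, b4, b5, b6⟩
  obtain ⟨t0, ht0, hd0, hA0, hAan, hinj, hall⟩ := hgood.exists
  have hmap : Filter.map A (𝓝 t0) = 𝓝 (A t0) := hAan.hasStrictDerivAt.map_nhds_eq hd0
  -- local inverses of `f`
  have hZ : ∀ i, ∃ Z : ℂ → ℂ, Inv f (A t0) Z ∧ Z (A t0) = G i t0 ∧ ∀ᶠ x in 𝓝 t0, Z (A x) = G i x := by
    intro i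
    obtain ⟨c1, c2, c3, c4, c5, c6, c7⟩ := hall i
    have hFd : deriv (fun z => z * deriv f z / f z) (G i t0) ≠ 0 := by
      intro h0
      apply hd0
      have h1 : deriv A t0 = deriv (fun x => F (G i x)) t0 := EventuallyEq.deriv_eq c5
      rw [h1]
      have h2 : HasDerivAt (fun x => F (G i x)) (deriv F (G i t0) * deriv (G i) t0) t0 :=
        (hFa _ c3).differentiableAt.hasDerivAt.comp t0 c1.differentiableAt.hasDerivAt
      rw [h2.deriv, hFdef, h0, zero_mul]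
    obtain ⟨Z, h1, h2, h3⟩ := Pool.Agent.W715.MX.p5_linv f (G i t0) hf c3 hFd
    have h4 : G i t0 * deriv f (G i t0) / f (G i t0) = A t0 := by
      rw [c5.self_of_nhds, hFdef]
    rw [h4] at h1 h2
    refine ⟨Z, h1, h2, ?_⟩
    filter_upwards [c1.continuousAt.eventually h3, c5] with x h5 h6
    rw [h6, hFdef]
    exact h5
  have hcd' : ∀ i, ∀ᶠ x in 𝓝 t0, A x = cj (G i) x * deriv (cj f) (cj (G i) x) / cj f (cj (G i) x) := by
    intro i
    obtain ⟨c1, c2, c3, c4, c5, c6, c7⟩ := hall i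
    have e1 : ∀ᶠ x in 𝓝 t0, f (G i x) ≠ 0 :=
      (hf.continuous.continuousAt.comp c1.continuousAt).eventually_ne c3
    have e2 : ∀ᶠ x in 𝓝 t0, cj f (cj (G i) x) ≠ 0 :=
      (hcd.continuous.continuousAt.comp c2.continuousAt).eventually_ne c4
    filter_upwards [c5, c7, e1, e2] with x h1 h2 h3 h4
    rw [h1, hFdef]
    show G i x * deriv f (G i x) / f (G i x) = _
    rw [div_eq_div_iff h3 h4]
    exact h2
  have hW : ∀ i, ∃ W : ℂ → ℂ, Inv (cj f) (A t0) W ∧ W (A t0) = cj (G i) t0 ∧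
      ∀ᶠ x in 𝓝 t0, W (A x) = cj (G i) x := by
    intro i
    obtain ⟨c1, c2, c3, c4, c5, c6, c7⟩ := hall i
    have hFc : AnalyticAt ℂ (fun z => z * deriv (cj f) z / cj f z) (cj (G i) t0) :=
      (analyticAt_id.mul (hcd.analyticAt _).deriv).div (hcd.analyticAt _) c4
    have hFd : deriv (fun z => z * deriv (cj f) z / cj f z) (cj (G i) t0) ≠ 0 := by
      intro h0
      apply hd0
      have h1 : deriv A t0 = deriv (fun x => cj (G i) x * deriv (cj f) (cj (G i) x) /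
        cj f (cj (G i) x)) t0 := EventuallyEq.deriv_eq (hcd' i)
      rw [h1]
      have h2 : HasDerivAt (fun x => cj (G i) x * deriv (cj f) (cj (G i) x) / cj f (cj (G i) x))
          (deriv (fun z => z * deriv (cj f) z / cj f z) (cj (G i) t0) * deriv (cj (G i)) t0) t0 :=
        hFc.differentiableAt.hasDerivAt.comp t0 c2.differentiableAt.hasDerivAt
      rw [h2.deriv, h0, zero_mul]
    obtain ⟨W, h1, h2, h3⟩ := Pool.Agent.W715.MX.p5_linv (cj f) (cj (G i) t0) hcd c4 hFd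
    have h4 : cj (G i) t0 * deriv (cj f) (cj (G i) t0) / cj f (cj (G i) t0) = A t0 :=
      (hcd' i).self_of_nhds.symm
    rw [h4] at h1 h2
    refine ⟨W, h1, h2, ?_⟩
    filter_upwards [c2.continuousAt.eventually h3, hcd' i] with x h5 h6
    rw [h6]
    exact h5
  choose Z hZ1 hZ2 hZ3 using hZ
  choose W hW1 hW2 hW3 using hW
  refine ⟨A t0, fun i => G i t0, fun i => cj (G i) t0, hA0, ?_, Z, W, fun i => ⟨hZ1 i, hZ2 i⟩,
    fun i => ⟨hW1 i, hW2 i⟩, ?_, ?_⟩
  · intro i j hij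
    by_contra h
    exact hinj i j h hij
  · intro i j
    rw [← hmap, Filter.eventually_map]
    filter_upwards [hZ3 i, hW3 i, hZ3 j, hW3 j, (hall i).2.2.2.2.2.1, (hall j).2.2.2.2.2.1] with
      x a1 a2 a3 a4 a5 a6
    rw [a1, a2, a3, a4, a5, a6]
  · intro i h
    rw [← hmap, Filter.eventually_map] at h
    have h1 : ∀ᶠ x in 𝓝 t0, (ε : ℂ) * x ^ N = (ε : ℂ) * t0 ^ N := by
      filter_upwards [h, hZ3 i, hW3 i, (hall i).2.2.2.2.2.1] with x a1 a2 a3 a4
      rw [a2, a3, a4, (hall i).2.2.2.2.2.1.self_of_nhds] at a1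
      exact add_left_cancel a1
    have h2 : HasDerivAt (fun x : ℂ => (ε : ℂ) * x ^ N) ((ε : ℂ) * (N * t0 ^ (N - 1))) t0 :=
      (hasDerivAt_pow N t0).const_mul _
    have h3 : HasDerivAt (fun x : ℂ => (ε : ℂ) * x ^ N) 0 t0 :=
      (hasDerivAt_const t0 ((ε : ℂ) * t0 ^ N)).congr_of_eventuallyEq h1
    have h4 := h2.unique h3
    refine absurd h4 (mul_ne_zero hε0 (mul_ne_zero ?_ (pow_ne_zero _ ht0)))
    have : N ≠ 0 := by omega
    exact_mod_cast this

end Pool.Agent.KS6_13.MX
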